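import Pool.Agent.L0h99.MN.Stm

set_option autoImplicit false

/-!
# Assembly of the dense minor
-/

namespace Pool.Agent.L0h99.MN

open Finset

theorem asm (hSML : St_SML) (hIND : St_IND) (hSTP : St_STP) (hSDT : St_SDT) (hSDP : St_SDP)
    (hPAR : St_PAR) (hTRE : St_TRE) (hCNN : St_CNN) (hCNT : St_CNT) (hPAK : St_PAK)
    (hATT : St_ATT) : St_ASM := by
  classical
  intro V _ _ G hU h3 hE
  have hG := hSML V G hU
  obtain ⟨M, hM0, hMa, hMd, hInv⟩ := hPAK V G h3 hE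
  obtain ⟨F', A, Z, D⟩ := hIND V G (fun W H hI hH => hSTP V G W H hG hI hH) _ _ hInv
  have hAU : ∀ a ∈ A, a ∈ UU G M ∧ a ∉ HH G M := fun a ha =>
    ⟨(D.cov a).2 (Or.inl ha), D.AH a ha⟩
  obtain ⟨L, hL1, hL2, hL3, hL4, hL5⟩ := hATT V G M A hMa hAU
  have mU : ∀ x, x ∈ UU G M ↔ ((∃ y, G.Adj x y) ∧ ∀ e ∈ M, x ∉ Bl G e) := by
    intro x
    unfold UU
    rw [mem_filter]
    exact ⟨fun h => h.2, fun h => ⟨mem_univ _, h⟩⟩
  have hUB : ∀ e ∈ M, ∀ x ∈ Bl G e, x ∉ UU G M := fun e he x hx h => ((mU x).1 h).2 e he hx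
  have hTU : ∀ T ∈ F', ∀ x ∈ T, x ∈ UU G M := fun T hT x hx =>
    (D.cov x).2 (Or.inr (Or.inr ⟨T, hT, hx⟩))
  have hZU : ∀ x ∈ Z, x ∈ UU G M := fun x hx => (D.cov x).2 (Or.inr (Or.inl hx))
  have hB2 : ∀ e ∈ M, e.2 ∈ Bl G e := fun e he => mem_union_left _ (mem_N.2 (hMa e he))
  -- the parts around the balls
  let P : V × V → Finset V := fun e => Bl G e ∪ L e
  have mP : ∀ e x, x ∈ P e ↔ (x ∈ Bl G e ∨ x ∈ L e) := fun e x => mem_union
  have hPd : ∀ e ∈ M, ∀ e' ∈ M, e ≠ e' → Disjoint (P e) (P e') := by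
    intro e he e' he' hne
    rw [disjoint_left]
    intro x hx hx'
    rcases (mP e x).1 hx with h1 | h1 <;> rcases (mP e' x).1 hx' with h2 | h2
    · exact disjoint_left.1 (hMd e he e' he' hne) h1 h2
    · exact hUB e he x h1 (hAU x (hL1 e' he' h2)).1
    · exact hUB e' he' x h2 (hAU x (hL1 e he h1)).1
    · exact disjoint_left.1 (hL3 e he e' he' hne) h1 h2
  have hPne : ∀ e ∈ M, (P e).Nonempty := fun e he => ⟨_, (mP e _).2 (Or.inl (hB2 e he))⟩
  have hPinj : Set.InjOn P (M : Set (V × V)) := by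
    intro e he e' he' h
    by_contra hne
    obtain ⟨x, hx⟩ := hPne e he
    exact disjoint_left.1 (hPd e he e' he' hne) hx (h ▸ hx)
  have hTP : ∀ T ∈ F', ∀ e ∈ M, Disjoint T (P e) := by
    intro T hT e he
    rw [disjoint_left]
    intro x hx hx'
    rcases (mP e x).1 hx' with h | h
    · exact hUB e he x h (hTU T hT x hx)
    · exact disjoint_left.1 (D.AT T hT) (hL1 e he h) hx
  let F : Finset (Finset V) := F' ∪ M.image P
  have mF : ∀ Q, Q ∈ F ↔ (Q ∈ F' ∨ ∃ e ∈ M, P e = Q) := by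
    intro Q
    show Q ∈ F' ∪ M.image P ↔ _
    rw [mem_union, mem_image]
  have hFdis : Disjoint F' (M.image P) := by
    rw [disjoint_left]
    intro T hT hT'
    obtain ⟨e, he, h⟩ := mem_image.1 hT'
    obtain ⟨x, hx⟩ := hPne e he
    have h1 := hTP T hT e he
    rw [h] at h1 hx
    exact disjoint_left.1 h1 hx hx
  have hFd : ∀ Q ∈ F, ∀ Q' ∈ F, Q ≠ Q' → Disjoint Q Q' := by
    intro Q hQ Q' hQ' hne
    rcases (mF Q).1 hQ with h1 | ⟨e, he, rfl⟩ <;> rcases (mF Q').1 hQ' with h2 | ⟨e', he', rfl⟩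
    · exact D.TT Q h1 Q' h2 hne
    · exact hTP Q h1 e' he'
    · exact (hTP Q' h2 e he).symm
    · exact hPd e he e' he' (fun h => hne (by rw [h]))
  have hSd : ∀ Q ∈ F, Sd G A Q := by
    intro Q hQ
    rcases (mF Q).1 hQ with h1 | ⟨e, he, rfl⟩
    · exact hSDT V G A Q (D.r2 Q h1) (D.AT Q h1)
    · exact hSDP V G e.1 e.2 A (L e) (hMa e he) (hL5 e he) (hL1 e he) (hL2 e he)
  have hLk : ∀ Q ∈ F, ∀ x ∈ Q, ∀ y ∈ Q, Lk G Q x y 5 := by
    intro Q hQ x hx y hy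
    obtain ⟨_, s, hs⟩ := hSd Q hQ
    exact (hs x hx y hy).1
  have hZd : ∀ Q ∈ F, Disjoint Q Z := by
    intro Q hQ
    rcases (mF Q).1 hQ with h1 | ⟨e, he, rfl⟩
    · exact (D.ZT Q h1).symm
    · rw [disjoint_left]
      intro x hx hxZ
      rcases (mP e x).1 hx with h | h
      · exact hUB e he x h (hZU x hxZ)
      · exact disjoint_left.1 D.AZ (hL1 e he h) hxZ
  have hcov : ∀ x y, G.Adj x y → y ∈ Z ∨ ∃ Q ∈ F, y ∈ Q := by
    intro x y hxy
    by_cases hy : y ∈ UU G M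
    · rcases (D.cov y).1 hy with h | h | ⟨T, hT, h⟩
      · obtain ⟨e, he, h5⟩ := hL4 y h
        exact Or.inr ⟨P e, (mF _).2 (Or.inr ⟨e, he, rfl⟩), (mP e y).2 (Or.inr h5)⟩
      · exact Or.inl h
      · exact Or.inr ⟨T, (mF _).2 (Or.inl hT), h⟩
    · rw [mU] at hy
      push Not at hy
      obtain ⟨e, he, h5⟩ := hy ⟨x, hxy.symm⟩
      exact Or.inr ⟨P e, (mF _).2 (Or.inr ⟨e, he, rfl⟩), (mP e y).2 (Or.inl h5)⟩
  have hcnt := hCNT V G F A Z hFd hZd hcov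
    (fun Q hQ => hTRE V G Q hU (hSd Q hQ).1 (hLk Q hQ))
    (fun Q hQ Q' hQ' hne => hPAR V G A Q Q' hU (hSd Q hQ) (hSd Q' hQ') (hFd Q hQ Q' hQ' hne))
  -- the sum of `Mu`
  have hmu : ∀ x, (∃ y, G.Adj x y) → 1 ≤ mu G x := by
    rintro x ⟨y, hy⟩
    have := h3 x y hy
    unfold mu
    omega
  have hBl6 : ∀ e ∈ M, 6 ≤ Mu G (Bl G e) := by
    intro e he
    have hd : Disjoint (N G e.1) (N G e.2) := by
      rw [disjoint_left]
      intro x hx hx'
      rw [mem_N] at hx hx'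
      exact hG.t e.1 x e.2 hx hx'.symm (hMa e he)
    have h1 : 6 ≤ (Bl G e).card := by
      unfold Bl
      rw [card_union_of_disjoint hd]
      have h4 := h3 _ _ (hMa e he)
      have h5 := h3 _ _ (hMa e he).symm
      omega
    have h2 : ((Bl G e).card : ℤ) ≤ Mu G (Bl G e) := by
      unfold Mu
      have : ∑ x ∈ Bl G e, (1 : ℤ) ≤ ∑ x ∈ Bl G e, mu G x := by
        refine sum_le_sum fun x hx => hmu x ?_
        unfold Bl at hx
        rcases mem_union.1 hx with h | h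
        · exact ⟨_, (mem_N.1 h).symm⟩
        · exact ⟨_, (mem_N.1 h).symm⟩
      simpa using this
    omega
  have hMuP : ∀ e ∈ M, Mu G (P e) = Mu G (Bl G e) + Mu G (L e) := by
    intro e he
    unfold Mu
    refine sum_union ?_
    rw [disjoint_left]
    intro x hx hx'
    exact disjoint_left.1 (hL5 e he) (hL1 e he hx') hx
  have hMuA : ∑ e ∈ M, Mu G (L e) = Mu G A := by
    unfold Mu
    rw [← sum_biUnion (fun e he e' he' hne => hL3 e he e' he' hne)]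
    refine sum_congr ?_ fun _ _ => rfl
    ext x
    rw [mem_biUnion]
    exact ⟨fun ⟨e, he, h⟩ => hL1 e he h, fun h => hL4 x h⟩
  have hcard : F.card = F'.card + M.card := by
    show (F' ∪ M.image P).card = _
    rw [card_union_of_disjoint hFdis, card_image_of_injOn hPinj]
  have hsum : ∑ Q ∈ F, Mu G Q = ∑ T ∈ F', Mu G T + (∑ e ∈ M, Mu G (Bl G e) + Mu G A) := by
    show ∑ Q ∈ F' ∪ M.image P, Mu G Q = _
    rw [sum_union hFdis, sum_image hPinj, sum_congr rfl hMuP, sum_add_distrib, hMuA]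
  have h6 : 6 * (M.card : ℤ) ≤ ∑ e ∈ M, Mu G (Bl G e) := by
    have := sum_le_sum hBl6
    simp only [sum_const, nsmul_eq_mul] at this
    linarith
  have hsc := D.sc
  refine ⟨F, ?_, fun Q hQ => hCNN V G Q (hSd Q hQ).1 (hLk Q hQ), hFd, ?_⟩
  · obtain ⟨e, he⟩ := hM0
    exact ⟨P e, (mF _).2 (Or.inr ⟨e, he, rfl⟩)⟩
  · rw [hsum, hcard] at hcnt
    push_cast at hcnt
    have : (8 * F.card : ℤ) ≤ adjO G F := by
      rw [hcard]
      push_cast
      linarith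
    exact_mod_cast this

end Pool.Agent.L0h99.MN
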