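import Mathlib

set_option autoImplicit false

/-!
# Statements for MP_974d84_co, project MN (helper99)

Theorem: a finite simple graph with girth at least twelve in which all non-isolated vertices have at
least three neighbours, and which has an edge, has `k > 0` disjoint connected sets of vertices with
at least `4 k` adjacent pairs.
-/

namespace Pool.Agent.L0h99.MN

open Finset

section

variable {V : Type} [Fintype V] [DecidableEq V]

open Classical in
/-- the neighbourhood of `x` -/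
noncomputable def N (G : SimpleGraph V) (x : V) : Finset V := univ.filter (fun y => G.Adj x y)

theorem mem_N {G : SimpleGraph V} {x y : V} : y ∈ N G x ↔ G.Adj x y := by simp [N]

/-- `mu x = deg x - 2` -/
noncomputable def mu (G : SimpleGraph V) (x : V) : ℤ := ((N G x).card : ℤ) - 2

/-- the sum of `mu` over a set -/
noncomputable def Mu (G : SimpleGraph V) (A : Finset V) : ℤ := ∑ x ∈ A, mu G x

/-- the number of the pairs `(x, y)`, `x ∈ A`, `y ∈ B`, with `x`, `y` adjacent -/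
noncomputable def ee (G : SimpleGraph V) (A B : Finset V) : ℤ := ∑ x ∈ A, ((N G x ∩ B).card : ℤ)

/-- girth at least twelve: paths with the same ends and together at most 11 edges are equal -/
def Uq (G : SimpleGraph V) : Prop := ∀ (x y : V) (p q : G.Walk x y), p.IsPath → q.IsPath →
  p.length + q.length ≤ 11 → p = q

/-- no triangles, no circuits with four edges -/
structure G34 (G : SimpleGraph V) : Prop where
  t : ∀ a b c, G.Adj a b → G.Adj b c → ¬ G.Adj a c
  q : ∀ a b c d, G.Adj a b → G.Adj b c → G.Adj a d → G.Adj d c → a ≠ c → b = d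

/-- a path with at most `n` edges inside `P` joins `x` and `y` -/
def Lk (G : SimpleGraph V) (P : Finset V) (x y : V) (n : ℕ) : Prop :=
  ∃ p : G.Walk x y, p.IsPath ∧ p.length ≤ n ∧ ∀ z ∈ p.support, z ∈ P

/-- `T` has radius at most two -/
def R2 (G : SimpleGraph V) (T : Finset V) : Prop :=
  ∃ c ∈ T, ∀ x ∈ T, x = c ∨ G.Adj c x ∨ ∃ y ∈ T, G.Adj c y ∧ G.Adj y x

/-- `A` is connected -/
def Cn (G : SimpleGraph V) (A : Finset V) : Prop :=
  A.Nonempty ∧ ∀ X ⊆ A, X.Nonempty → X ≠ A → ∃ a ∈ X, ∃ b ∈ A \ X, G.Adj a b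

/-- `W`: the vertices which are still free, `H ⊆ W`: the heavy ones -/
structure Inv (G : SimpleGraph V) (W H : Finset V) : Prop where
  sub : H ⊆ W
  deg : ∀ x ∈ W, 3 ≤ (N G x).card
  hN : ∀ h ∈ H, ∀ y, G.Adj h y → y ∈ W
  ind : ∀ h ∈ H, ∀ g ∈ H, ¬ G.Adj h g
  out : ∀ x ∈ W, x ∉ H → ∃ y, G.Adj x y ∧ y ∉ W

/-- a decomposition of `W`: parts `T ∈ F` with radius at most two, light vertices `A`, deleted heavy
vertices `Z` -/
structure Dec (G : SimpleGraph V) (W H : Finset V) (F : Finset (Finset V)) (A Z : Finset V) :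
    Prop where
  cov : ∀ x, x ∈ W ↔ (x ∈ A ∨ x ∈ Z ∨ ∃ T ∈ F, x ∈ T)
  AZ : Disjoint A Z
  AT : ∀ T ∈ F, Disjoint A T
  ZT : ∀ T ∈ F, Disjoint Z T
  TT : ∀ T ∈ F, ∀ T' ∈ F, T ≠ T' → Disjoint T T'
  ZH : Z ⊆ H
  AH : ∀ x ∈ A, x ∉ H
  r2 : ∀ T ∈ F, R2 G T
  sc : 12 * (F.card : ℤ) + ee G A A + 2 * ∑ z ∈ Z, ((N G z).card : ℤ) ≤
    2 * ∑ T ∈ F, Mu G T + 2 * Mu G A

/-- a first block of a decomposition: one part `T` and some light vertices `A` -/
def StepT (G : SimpleGraph V) (W H : Finset V) : Prop := ∃ T A : Finset V, T ⊆ W ∧ A ⊆ W ∧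
  Disjoint T A ∧ (∀ x ∈ A, x ∉ H) ∧ R2 G T ∧ 12 + ee G A A ≤ 2 * Mu G T + 2 * Mu G A ∧
  (∀ h ∈ H, h ∉ T → ∀ y, y ∈ T ∨ y ∈ A → ¬ G.Adj h y) ∧
  (∀ x ∈ A, ∀ y ∈ W, y ∉ T → y ∉ A → ¬ G.Adj x y)

/-- a first block of a decomposition: one deleted heavy vertex `v` and some light vertices `A` -/
def StepZ (G : SimpleGraph V) (W H : Finset V) : Prop := ∃ v ∈ H, ∃ A ⊆ W, (∀ x ∈ A, x ∉ H) ∧
  ee G A A + 2 * ((N G v).card : ℤ) ≤ 2 * Mu G A ∧
  (∀ h ∈ H, h ≠ v → ∀ y ∈ A, ¬ G.Adj h y) ∧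
  (∀ x ∈ A, ∀ y ∈ W, y ≠ v → y ∉ A → ¬ G.Adj x y)

/-- a good vertex of the branch of `v` at `w` -/
def Good (G : SimpleGraph V) (W H : Finset V) (v w y : V) : Prop :=
  y ∈ W ∧ G.Adj w y ∧ y ≠ v ∧ (y ∈ H ∨ ∀ h ∈ H, ¬ G.Adj h y)

/-- `v` has three neighbours and at most one good vertex in all three branches -/
def Tame (G : SimpleGraph V) (W H : Finset V) (v : V) : Prop := ∃ a b w : V, a ≠ b ∧ a ≠ w ∧
  b ≠ w ∧ N G v = {a, b, w} ∧ (∀ y, ¬ Good G W H v a y) ∧ (∀ y, ¬ Good G W H v b y) ∧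
  (∀ y y', Good G W H v w y → Good G W H v w y' → y = y')

/-- two of the three neighbours of `v` are leaves in `W` -/
def Leafy (G : SimpleGraph V) (W : Finset V) (v : V) : Prop := ∃ a b w : V, a ≠ b ∧ a ≠ w ∧
  b ≠ w ∧ N G v = {a, b, w} ∧ (∀ y ∈ W, G.Adj a y → y = v) ∧ (∀ y ∈ W, G.Adj b y → y = v) ∧
  (∀ y ∈ W, ∀ y' ∈ W, G.Adj w y → G.Adj w y' → y ≠ v → y' ≠ v → y = y')

/-- every vertex has at most one heavy neighbour -/
def CA (G : SimpleGraph V) (H : Finset V) : Prop :=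
  ∀ a, ∀ h ∈ H, ∀ g ∈ H, G.Adj a h → G.Adj a g → h = g

/-- heavy vertices have distance at least four -/
def CB (G : SimpleGraph V) (H : Finset V) : Prop :=
  ∀ v ∈ H, ∀ h ∈ H, ∀ w y, G.Adj v w → G.Adj w y → ¬ G.Adj y h

/-- two elements of `P` are joined by a path in `P` with at most five edges, and even with at most
four edges if they are not both in `A` or if they are on the same side -/
def Sd (G : SimpleGraph V) (A P : Finset V) : Prop := P.Nonempty ∧ ∃ s : V → Bool,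
  ∀ x ∈ P, ∀ y ∈ P, Lk G P x y 5 ∧ ((x ∉ A ∨ y ∉ A ∨ s x = s y) → Lk G P x y 4)

open Classical in
/-- twice the number of the adjacent pairs of elements of `F` -/
noncomputable def adjO (G : SimpleGraph V) (F : Finset (Finset V)) : ℕ :=
  (F.offDiag.filter (fun p => ∃ x ∈ p.1, ∃ y ∈ p.2, G.Adj x y)).card

/-- the ball of radius one around the edge `e` -/
noncomputable def Bl (G : SimpleGraph V) (e : V × V) : Finset V := N G e.1 ∪ N G e.2

open Classical in
/-- the vertices with neighbours outside the balls -/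
noncomputable def UU (G : SimpleGraph V) (M : Finset (V × V)) : Finset V :=
  univ.filter (fun x => (∃ y, G.Adj x y) ∧ ∀ e ∈ M, x ∉ Bl G e)

open Classical in
/-- the heavy vertices: all neighbours are outside the balls -/
noncomputable def HH (G : SimpleGraph V) (M : Finset (V × V)) : Finset V :=
  (UU G M).filter (fun x => ∀ y, G.Adj x y → y ∈ UU G M)

/-! ### The modules -/

/-- SML (30 lines): paths `x, y` and `x, z, y`, or `a, b, c` and `a, d, c`, are different. -/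
def St_SML : Prop := ∀ (V : Type) [Fintype V] [DecidableEq V] (G : SimpleGraph V), Uq G → G34 G

/-- IND (120 lines).  Induction on `W.card`.  If `H` is empty: `F = ∅`, `Z = ∅`, `A = W`
(every `x ∈ W` has a neighbour outside `W`, so `(N G x ∩ W).card ≤ (N G x).card - 1 ≤ 2 * mu x`).
Otherwise apply the hypothesis: with `StepT`: `Q = T ∪ A`, `W' = W \ Q`, `H' = H \ Q`
satisfy `Inv` (`R2` gives `T` nonempty, so `W'` is smaller), and from a decomposition `F', A', Z'` of
`W'` one gets `insert T F'`, `A ∪ A'`, `Z'`; there are no edges between `A` and `A'` by the last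
clause, so `ee` is additive.  With `StepZ`: `Q = insert v A`, and `F', A ∪ A', insert v Z'`. -/
def St_IND : Prop := ∀ (V : Type) [Fintype V] [DecidableEq V] (G : SimpleGraph V),
  (∀ W H, Inv G W H → H.Nonempty → StepT G W H ∨ StepZ G W H) →
  ∀ W H, Inv G W H → ∃ F A Z, Dec G W H F A Z

/-- TV (150 lines).  `T = {v} ∪ N G v ∪ {y | ∃ w, G.Adj v w ∧ Good G W H v w y}`, `A = ∅`; centre `v`.
A heavy vertex `h ∉ T` has no neighbour in `T` (`v`: `ind`; `w ∈ N v`: `h` would be good; a good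
vertex is heavy or has no heavy neighbours).  The sets of the good vertices of the different
branches are disjoint (no 4-circuit), do not meet `N v` (no triangle) and do not contain `v`.
So if `d = deg v` and `g` is the number of the good vertices, then
`Mu T ≥ (d - 2) + d + g`.  If `Mu T ≥ 6`: `StepT`.  Otherwise `d = 3` and `g ≤ 1`: `Tame`. -/
def St_TV : Prop := ∀ (V : Type) [Fintype V] [DecidableEq V] (G : SimpleGraph V) (W H : Finset V),
  G34 G → Inv G W H → ∀ v ∈ H, StepT G W H ∨ Tame G W H v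

/-- C1 (100 lines).  If `CA` fails: heavy `h ≠ g` with a common neighbour `a`.
`T = {h, g} ∪ N h ∪ N g`, `A = ∅`, centre `a`, seven elements (`N h ∩ N g = {a}`, no 4-circuit), so
`Mu T ≥ 7`.  A heavy vertex `k ∉ T` with a neighbour `t ∈ T`: `t ∈ N h`, say.  `Tame h`:
`N h = {p, q, w}`; `g` is good for the branch of `h` at `a`, so `a = w`; `k` is good for the branch
at `t`, so `t = w = a` and `k = g`, a contradiction. -/
def St_C1 : Prop := ∀ (V : Type) [Fintype V] [DecidableEq V] (G : SimpleGraph V) (W H : Finset V),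
  G34 G → Inv G W H → (∀ v ∈ H, Tame G W H v) → StepT G W H ∨ CA G H

/-- C2 (80 lines).  If `CB` fails: `v, w, y, h`.  `h ≠ v` (no triangle).
`T = {v, y, h} ∪ N v`, `A = ∅`, centre `w`, at least six elements.  By `CA` and `ind` a heavy vertex
outside `T` has no neighbour in `T`. -/
def St_C2 : Prop := ∀ (V : Type) [Fintype V] [DecidableEq V] (G : SimpleGraph V) (W H : Finset V),
  G34 G → Inv G W H → CA G H → StepT G W H ∨ CB G H

/-- LF (30 lines).  Every `y ∈ W`, `y ≠ v`, adjacent to a neighbour `w` of `v` is good: it is not heavy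
by `CA`, and has no heavy neighbour by `CB`. -/
def St_LF : Prop := ∀ (V : Type) [Fintype V] [DecidableEq V] (G : SimpleGraph V) (W H : Finset V),
  Inv G W H → CA G H → CB G H → ∀ v ∈ H, Tame G W H v → Leafy G W v

/-- C3Z (120 lines).  `v` heavy, `N v = {a, b, w}` as in `Leafy`.  Either (`y = v` is the only neighbour
of `w` in `W`): `StepZ` with `v`, `A = {a, b, w}` (`ee A A = 0`, `Mu A ≥ 3`), or there is exactly one
other one `y` (not heavy by `CA`, without heavy neighbours by `CB`) and `w` is its only neighbour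
in `W`: `StepZ` with `v`, `A = {a, b, w, y}` (`ee A A = 2`, `Mu A ≥ 4`). -/
def St_C3Z : Prop := ∀ (V : Type) [Fintype V] [DecidableEq V] (G : SimpleGraph V) (W H : Finset V),
  G34 G → Inv G W H → CA G H → CB G H → ∀ v ∈ H, ∀ a b w, a ≠ b → a ≠ w → b ≠ w →
  N G v = {a, b, w} → (∀ y ∈ W, G.Adj a y → y = v) → (∀ y ∈ W, G.Adj b y → y = v) →
  (∀ y ∈ W, ∀ y' ∈ W, G.Adj w y → G.Adj w y' → y ≠ v → y' ≠ v → y = y') →
  ((∀ y ∈ W, G.Adj w y → y = v) ∨
    (∃ y ∈ W, G.Adj w y ∧ y ≠ v ∧ ∀ x ∈ W, G.Adj y x → x = w)) → StepZ G W H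

/-- C3T (80 lines).  `T = {v, a, b, w, y, x}` (six vertices), `A = ∅`, centre `w`. -/
def St_C3T : Prop := ∀ (V : Type) [Fintype V] [DecidableEq V] (G : SimpleGraph V) (W H : Finset V),
  G34 G → Inv G W H → CA G H → CB G H → ∀ v ∈ H, ∀ a b w, a ≠ b → a ≠ w → b ≠ w →
  N G v = {a, b, w} → ∀ y ∈ W, G.Adj w y → y ≠ v → ∀ x ∈ W, G.Adj y x → x ≠ w →
  (∀ h ∈ H, ¬ G.Adj h x) → StepT G W H

/-- C3H (150 lines).  `h ≠ v` (no 4-circuit `v, w, y, x`).  `Leafy h`: `N h = {a', b', x'}` where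
`a'`, `b'` have no neighbour in `W` except `h`; `x` has the neighbour `y ≠ h` in `W`, so `x = x'`.
`T = {v, w, y, x, h}`, centre `y`, `Mu T ≥ 5`, `A = {a, b, a', b'}`, `Mu A ≥ 4`, `ee A A = 0`;
`a`, `b`, `a'`, `b'` are different since by `CA` no vertex is adjacent to `v` and to `h`. -/
def St_C3H : Prop := ∀ (V : Type) [Fintype V] [DecidableEq V] (G : SimpleGraph V) (W H : Finset V),
  G34 G → Inv G W H → CA G H → CB G H → ∀ v ∈ H, ∀ a b w, a ≠ b → a ≠ w → b ≠ w →
  N G v = {a, b, w} → (∀ y ∈ W, G.Adj a y → y = v) → (∀ y ∈ W, G.Adj b y → y = v) →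
  ∀ y ∈ W, G.Adj w y → y ≠ v → ∀ x ∈ W, G.Adj y x → x ≠ w →
  ∀ h ∈ H, G.Adj h x → Leafy G W h → StepT G W H

/-- STP (60 lines), from SML, TV, C1, C2, LF, C3Z, C3T, C3H. -/
def St_STP : Prop := ∀ (V : Type) [Fintype V] [DecidableEq V] (G : SimpleGraph V) (W H : Finset V),
  G34 G → Inv G W H → H.Nonempty → StepT G W H ∨ StepZ G W H

/-- SDT (60 lines).  Walks through the centre of `T` (then `Walk.bypass`: `Lk` follows from a walk). -/
def St_SDT : Prop := ∀ (V : Type) [Fintype V] [DecidableEq V] (G : SimpleGraph V) (A T : Finset V),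
  R2 G T → Disjoint A T → Sd G A T

/-- SDP (120 lines).  `P = Bl G (a, b) ∪ L`, `L ⊆ A` (the elements of `L` are adjacent to an element
of `Bl`), `A` does not meet `Bl`.  `s x = true` iff `x` has a neighbour in `N G a`.
Elements of `Bl` have distance at most one from `a` or `b`, elements of `L` distance two from `a`
(if `s x`) or from `b`; walks through `a`, `b` (then `Walk.bypass`). -/
def St_SDP : Prop := ∀ (V : Type) [Fintype V] [DecidableEq V] (G : SimpleGraph V) (a b : V)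
  (A L : Finset V), G.Adj a b → Disjoint A (Bl G (a, b)) → L ⊆ A →
  (∀ x ∈ L, ∃ y ∈ Bl G (a, b), G.Adj y x) → Sd G A (Bl G (a, b) ∪ L)

/-- PAX (80 lines).  If `x ≠ x'`: the path in `P` from `x` to `x'` and the path `x, y, ..., y', x'`
(through `Q`) are different and have together at most `m + n + 2 ≤ 11` edges, contradicting `Uq`.
If `x = x'` and `y ≠ y'`: the path in `Q` from `y` to `y'` and `y, x, y'`. -/
def St_PAX : Prop := ∀ (V : Type) [Fintype V] [DecidableEq V] (G : SimpleGraph V)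
  (P Q : Finset V) (m n : ℕ) (x x' y y' : V), Uq G → Disjoint P Q → x ∈ P → x' ∈ P → y ∈ Q →
  y' ∈ Q → G.Adj x y → G.Adj x' y' → Lk G P x x' m → Lk G Q y y' n → m + n + 2 ≤ 11 →
  x = x' ∧ y = y'

/-- PAR (120 lines), from PAX.  Two different adjacent pairs `(x, y)`, `(x', y')` in `P × Q` have all
their elements in `A` and different sides `s x ≠ s x'`; three different pairs are impossible
(`Bool`).  So `ee P Q` is `0`, or `1`, or `2` and then all the pairs are in `A × A`. -/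
def St_PAR : Prop := ∀ (V : Type) [Fintype V] [DecidableEq V] (G : SimpleGraph V)
  (A P Q : Finset V), Uq G → Sd G A P → Sd G A Q → Disjoint P Q →
  (ee G P Q = 0 ∨ (∃ x ∈ P, ∃ y ∈ Q, G.Adj x y) ∧ 2 * ee G P Q ≤ 2 + ee G (P ∩ A) (Q ∩ A))

/-- TRE (150 lines).  Fix `c ∈ P`, let `d x` be the least `n` with `Lk G P c x n` (at most five) and
`par x` the last vertex but one of such a path.  If `x, y ∈ P` are adjacent and `d x ≤ d y` then
`x = par y`: `y` is not on the shortest path from `c` to `x`, so this path and the edge `x, y` form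
a path with `d x + 1 ≤ 6` edges, and together with the one of `y` there are at most 11 edges
(`d x + 1 + d y ≤ 11`), so they are equal.  Hence the number of the ordered adjacent pairs in `P`
is at most twice the number of the elements `y ≠ c` of `P`. -/
def St_TRE : Prop := ∀ (V : Type) [Fintype V] [DecidableEq V] (G : SimpleGraph V)
  (P : Finset V), Uq G → P.Nonempty → (∀ x ∈ P, ∀ y ∈ P, Lk G P x y 5) →
  ee G P P + 2 ≤ 2 * (P.card : ℤ)

/-- CNN (40 lines).  A path in `P` from `X` to `P \ X` has an edge which leaves `X`. -/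
def St_CNN : Prop := ∀ (V : Type) [Fintype V] [DecidableEq V] (G : SimpleGraph V)
  (P : Finset V), P.Nonempty → (∀ x ∈ P, ∀ y ∈ P, Lk G P x y 5) → Cn G P

/-- CNT (150 lines).  For `P ∈ F`: `∑ x ∈ P, deg x = ee P P + ∑ Q ∈ F \ {P}, ee P Q + ee P Z`
(every neighbour is in an element of `F` or in `Z`).  Add up: `∑ P, ee P Z ≤ ∑ z ∈ Z, deg z`,
`2 * ee P Q ≤ 2 * [P, Q adjacent] + ee (P ∩ A) (Q ∩ A)`, and the last terms add up to at most
`ee A A`. -/
def St_CNT : Prop := ∀ (V : Type) [Fintype V] [DecidableEq V] (G : SimpleGraph V)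
  (F : Finset (Finset V)) (A Z : Finset V), (∀ P ∈ F, ∀ Q ∈ F, P ≠ Q → Disjoint P Q) →
  (∀ P ∈ F, Disjoint P Z) →
  (∀ x y, G.Adj x y → y ∈ Z ∨ ∃ P ∈ F, y ∈ P) →
  (∀ P ∈ F, ee G P P + 2 ≤ 2 * (P.card : ℤ)) →
  (∀ P ∈ F, ∀ Q ∈ F, P ≠ Q →
    (ee G P Q = 0 ∨ (∃ x ∈ P, ∃ y ∈ Q, G.Adj x y) ∧ 2 * ee G P Q ≤ 2 + ee G (P ∩ A) (Q ∩ A))) →
  2 * ∑ P ∈ F, Mu G P + 4 * (F.card : ℤ) ≤
    2 * (adjO G F : ℤ) + ee G A A + 2 * ∑ z ∈ Z, ((N G z).card : ℤ)

/-- PAK (100 lines).  A maximal set `M` of edges with pairwise disjoint balls.  Two adjacent heavy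
vertices `x`, `y` would give one more edge: the ball of `(x, y)` consists of vertices of `UU`. -/
def St_PAK : Prop := ∀ (V : Type) [Fintype V] [DecidableEq V] (G : SimpleGraph V),
  (∀ x y, G.Adj x y → 3 ≤ (N G x).card) → (∃ x y, G.Adj x y) →
  ∃ M : Finset (V × V), M.Nonempty ∧ (∀ e ∈ M, G.Adj e.1 e.2) ∧
    (∀ e ∈ M, ∀ e' ∈ M, e ≠ e' → Disjoint (Bl G e) (Bl G e')) ∧ Inv G (UU G M) (HH G M)

/-- ATT (120 lines).  Every `a ∈ A` is in `UU` and not in `HH`, so it has a neighbour which is in a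
ball; choose `f a ∈ M` with a neighbour of `a` in `Bl G (f a)`.
`L e = A.filter (fun a => f a = e)`. -/
def St_ATT : Prop := ∀ (V : Type) [Fintype V] [DecidableEq V] (G : SimpleGraph V)
  (M : Finset (V × V)) (A : Finset V), (∀ e ∈ M, G.Adj e.1 e.2) →
  (∀ a ∈ A, a ∈ UU G M ∧ a ∉ HH G M) →
  ∃ L : V × V → Finset V, (∀ e ∈ M, L e ⊆ A) ∧ (∀ e ∈ M, ∀ x ∈ L e, ∃ y ∈ Bl G e, G.Adj y x) ∧
    (∀ e ∈ M, ∀ e' ∈ M, e ≠ e' → Disjoint (L e) (L e')) ∧ (∀ a ∈ A, ∃ e ∈ M, a ∈ L e) ∧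
    (∀ e ∈ M, Disjoint A (Bl G e))

/-- ASM (200 lines), from PAK, STP, IND, ATT, SDT, SDP, PAR, TRE, CNN, CNT, SML.
`F = F' ∪ M.image (fun e => Bl G e ∪ L e)`, where `F'`, `A`, `Z` is the decomposition of
`UU G M`.  The elements of `F` are pairwise disjoint and nonempty, `F.card = F'.card + M.card`,
`∑ P ∈ F, Mu P = ∑ T ∈ F', Mu T + ∑ e ∈ M, Mu (Bl e) + Mu A`, and `Mu (Bl e) ≥ 6`: `Bl e` has at
least six elements (`N e.1` and `N e.2` are disjoint, no triangle).  With `Dec.sc` and CNT: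
`16 * F.card ≤ 2 * adjO`. -/
def St_ASM : Prop := ∀ (V : Type) [Fintype V] [DecidableEq V] (G : SimpleGraph V), Uq G →
  (∀ x y, G.Adj x y → 3 ≤ (N G x).card) → (∃ x y, G.Adj x y) →
  ∃ F : Finset (Finset V), F.Nonempty ∧ (∀ P ∈ F, Cn G P) ∧
    (∀ P ∈ F, ∀ Q ∈ F, P ≠ Q → Disjoint P Q) ∧ 8 * F.card ≤ adjO G F

end

end Pool.Agent.L0h99.MN
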