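import Pool.Agent.Y358.IN.Ind
import Pool.Agent.L0h99.MN.Stm

set_option autoImplicit false
set_option linter.unusedSectionVars false

/-!
# Multigraphs all whose simple minors have fewer than four times as many edges as vertices
-/

namespace Pool.Agent.L0h99.MN

open Finset Pool.Agent.TH676.Z Pool.Agent.Y335.FL Pool.Agent.Y358.IN

section

variable {V E : Type}

/-- some edge has one end in `A` and the other end in `B` -/
def Joined (src dst : E → V) (A B : Finset V) : Prop :=
  ∃ e, (src e ∈ A ∧ dst e ∈ B) ∨ (src e ∈ B ∧ dst e ∈ A)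

/-- `A` induces a connected subgraph -/
def Connected [DecidableEq V] (src dst : E → V) (A : Finset V) : Prop :=
  A.Nonempty ∧ ∀ X ⊆ A, X.Nonempty → X ≠ A → Joined src dst X (A \ X)

/-- the graph obtained by contracting the sets `B i` -/
def minorGraph (src dst : E → V) {k : ℕ} (B : Fin k → Finset V) : SimpleGraph (Fin k) where
  Adj i j := i ≠ j ∧ Joined src dst (B i) (B j)
  symm := ⟨fun _ _ h => ⟨h.1.symm, by
    obtain ⟨e, he | he⟩ := h.2
    · exact ⟨e, Or.inr he⟩
    · exact ⟨e, Or.inl he⟩⟩⟩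
  loopless := ⟨fun _ h => h.1 rfl⟩

open Classical in
/-- twice the number of the edges of the minor with the vertices `F` -/
noncomputable def jo [DecidableEq V] (src dst : E → V) (F : Finset (Finset V)) : ℕ :=
  (F.offDiag.filter (fun p => Joined src dst p.1 p.2)).card

/-- the class -/
def Sm [DecidableEq V] (src dst : E → V) : Prop := ∀ F : Finset (Finset V), F.Nonempty →
  (∀ A ∈ F, ∀ B ∈ F, A ≠ B → Disjoint A B) → (∀ A ∈ F, Connected src dst A) →
  jo src dst F < 8 * F.card

variable [Fintype V] [DecidableEq V] [Fintype E] [DecidableEq E]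

/-- the class is closed under contraction: families which avoid the vertex `v = dst e` -/
theorem ccSm1 {src dst : E → V} (e : E) (h : Sm src dst) (hne : src e ≠ dst e)
    (F : Finset (Finset V)) (hF : F.Nonempty)
    (hd : ∀ A ∈ F, ∀ B ∈ F, A ≠ B → Disjoint A B)
    (hc : ∀ A ∈ F, Connected (ctr (src e) (dst e) ∘ src) (ctr (src e) (dst e) ∘ dst) A)
    (hvF : ∀ A ∈ F, dst e ∉ A) :
    jo (ctr (src e) (dst e) ∘ src) (ctr (src e) (dst e) ∘ dst) F < 8 * F.card := by
  classical
  set u := src e with hu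
  set v := dst e with hv
  have hcv : ∀ x, ctr u v x ≠ v := by
    intro x hx
    unfold ctr at hx
    split_ifs at hx with h1
    · exact hne hx
    · exact h1 hx
  set pre : Finset V → Finset V := fun A => univ.filter (fun x => ctr u v x ∈ A) with hpre
  have hm : ∀ A x, x ∈ pre A ↔ ctr u v x ∈ A := by
    intro A x
    simp [hpre]
  have hfix : ∀ x, x ≠ v → ctr u v x = x := fun x hx => ctr_of_ne hx
  have hvu : ctr u v v = u := ctr_v u v
  have hinj : Set.InjOn pre (F : Set (Finset V)) := by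
    intro A hA B hB hAB
    by_contra hne'
    obtain ⟨x, hx⟩ := (hc A hA).1
    have h1 : x ≠ v := fun h => hvF A hA (h ▸ hx)
    have h2 : x ∈ pre A := (hm A x).2 (by rw [hfix x h1]; exact hx)
    rw [hAB] at h2
    have h3 := (hm B x).1 h2
    rw [hfix x h1] at h3
    exact disjoint_left.1 (hd A hA B hB hne') hx h3
  have hJ : ∀ A B, Joined (ctr u v ∘ src) (ctr u v ∘ dst) A B ↔ Joined src dst (pre A) (pre B) := by
    intro A B
    unfold Joined
    simp only [hm, Function.comp_apply]
  have h1 := h (F.image pre) (hF.image pre) ?_ ?_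
  · rw [card_image_of_injOn hinj] at h1
    refine lt_of_le_of_lt ?_ h1
    unfold jo
    refine card_le_card_of_injOn (fun p => (pre p.1, pre p.2)) ?_ ?_
    · intro p hp
      rw [mem_coe, mem_filter, mem_offDiag] at hp
      rw [mem_coe, mem_filter, mem_offDiag]
      obtain ⟨⟨hp1, hp2, hp3⟩, hp4⟩ := hp
      refine ⟨⟨mem_image_of_mem _ hp1, mem_image_of_mem _ hp2, fun h => hp3 (hinj hp1 hp2 h)⟩, ?_⟩
      exact (hJ _ _).1 hp4
    · intro p hp q hq hpq
      rw [mem_coe, mem_filter, mem_offDiag] at hp hq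
      have e1 := congrArg Prod.fst hpq
      have e2 := congrArg Prod.snd hpq
      exact Prod.ext (hinj hp.1.1 hq.1.1 e1) (hinj hp.1.2.1 hq.1.2.1 e2)
  · intro A' hA' B' hB' hAB'
    obtain ⟨A, hA, rfl⟩ := mem_image.1 hA'
    obtain ⟨B, hB, rfl⟩ := mem_image.1 hB'
    rw [disjoint_left]
    intro x hx hx'
    exact disjoint_left.1 (hd A hA B hB (fun h => hAB' (by rw [h]))) ((hm A x).1 hx)
      ((hm B x).1 hx')
  · intro A' hA'
    obtain ⟨A, hA, rfl⟩ := mem_image.1 hA'
    refine ⟨?_, ?_⟩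
    · obtain ⟨x, hx⟩ := (hc A hA).1
      refine ⟨x, (hm A x).2 ?_⟩
      rw [hfix x (fun h => hvF A hA (h ▸ hx))]
      exact hx
    · intro X hX hXn hXne
      by_cases hsep : (u ∈ X ∧ v ∈ pre A \ X) ∨ (u ∈ pre A \ X ∧ v ∈ X)
      · exact ⟨e, hsep⟩
      · -- `u` and `v` are on the same side
        have hX1 : ∀ x ∈ pre A, ctr u v x ∈ X → x ∈ X := by
          intro x hx hx'
          by_cases hxv : x = v
          · rw [hxv, hvu] at hx'
            by_contra hcon
            exact hsep (Or.inl ⟨hx', mem_sdiff.2 ⟨hxv ▸ hx, hxv ▸ hcon⟩⟩)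
          · rw [hfix x hxv] at hx'
            exact hx'
        have hX2 : ∀ x ∈ pre A, ctr u v x ∉ X → x ∉ X := by
          intro x hx hx' hcon
          by_cases hxv : x = v
          · rw [hxv, hvu] at hx'
            rw [hxv] at hcon hx
            have hu' : u ∈ pre A := by
              rw [hm]
              have := (hm A v).1 hx
              rw [hvu] at this
              rw [hfix u hne]
              exact this
            exact hsep (Or.inr ⟨mem_sdiff.2 ⟨hu', hx'⟩, hcon⟩)
          · rw [hfix x hxv] at hx'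
            exact hx' hcon
        have hsub : X.erase v ⊆ A := by
          intro x hx
          have h1 := (hm A x).1 (hX (mem_of_mem_erase hx))
          rwa [hfix x (ne_of_mem_erase hx)] at h1
        have hcX : ∀ x ∈ X, ctr u v x ∈ X.erase v := by
          intro x hx
          refine mem_erase.2 ⟨hcv x, ?_⟩
          by_contra hcon
          exact hX2 x (hX hx) hcon hx
        have hne1 : (X.erase v).Nonempty := by
          obtain ⟨x, hx⟩ := hXn
          exact ⟨_, hcX x hx⟩
        have hne2 : X.erase v ≠ A := by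
          intro heq
          apply hXne
          refine Finset.Subset.antisymm hX fun x hx => ?_
          have h1 := (hm A x).1 hx
          rw [← heq] at h1
          exact hX1 x hx (mem_of_mem_erase h1)
        obtain ⟨d, hd'⟩ := (hc A hA).2 (X.erase v) hsub hne1 hne2
        have k1 : ∀ x, ctr u v x ∈ X.erase v → x ∈ X := fun x hx =>
          hX1 x ((hm A x).2 (hsub hx)) (mem_of_mem_erase hx)
        have k2 : ∀ x, ctr u v x ∈ A \ X.erase v → x ∈ pre A \ X := by
          intro x hx
          obtain ⟨h1, h2⟩ := mem_sdiff.1 hx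
          have h3 := (hm A x).2 h1
          refine mem_sdiff.2 ⟨h3, fun h4 => h2 (hcX x h4)⟩
        rcases hd' with ⟨h1, h2⟩ | ⟨h1, h2⟩
        · exact ⟨d, Or.inl ⟨k1 _ h1, k2 _ h2⟩⟩
        · exact ⟨d, Or.inr ⟨k2 _ h1, k1 _ h2⟩⟩

theorem ccSm : CC (V := V) (E := E) Sm := by
  classical
  intro src dst e h hne F hF hd hc
  by_cases hvF : ∀ A ∈ F, dst e ∉ A
  · exact ccSm1 e h hne F hF hd hc hvF
  push Not at hvF
  obtain ⟨A, hA, hvA⟩ := hvF
  have hcv : ∀ x, ctr (src e) (dst e) x ≠ dst e := by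
    intro x hx
    unfold ctr at hx
    split_ifs at hx with h1
    · exact hne hx
    · exact h1 hx
  have hno : ∀ X : Finset V, ¬ Joined (ctr (src e) (dst e) ∘ src) (ctr (src e) (dst e) ∘ dst)
      {dst e} X := by
    rintro X ⟨d, h1 | h1⟩
    · exact hcv _ (mem_singleton.1 h1.1)
    · exact hcv _ (mem_singleton.1 h1.2)
  have hAv : {dst e} = A := by
    by_contra hne'
    exact hno _ ((hc A hA).2 {dst e} (singleton_subset_iff.2 hvA) (singleton_nonempty _) hne')
  have hno' : ∀ X : Finset V, ¬ Joined (ctr (src e) (dst e) ∘ src) (ctr (src e) (dst e) ∘ dst)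
      X {dst e} := by
    rintro X ⟨d, h1 | h1⟩
    · exact hcv _ (mem_singleton.1 h1.2)
    · exact hcv _ (mem_singleton.1 h1.1)
  have hle : jo (ctr (src e) (dst e) ∘ src) (ctr (src e) (dst e) ∘ dst) F ≤
      jo (ctr (src e) (dst e) ∘ src) (ctr (src e) (dst e) ∘ dst) (F.erase A) := by
    unfold jo
    refine card_le_card fun p hp => ?_
    rw [mem_filter, mem_offDiag] at hp ⊢
    obtain ⟨⟨h1, h2, h3⟩, h4⟩ := hp
    refine ⟨⟨mem_erase.2 ⟨?_, h1⟩, mem_erase.2 ⟨?_, h2⟩, h3⟩, h4⟩
    · intro h5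
      rw [h5, ← hAv] at h4
      exact hno _ h4
    · intro h5
      rw [h5, ← hAv] at h4
      exact hno' _ h4
  have hcard := card_erase_of_mem hA
  have hpos : 0 < F.card := card_pos.2 hF
  by_cases hE : (F.erase A).Nonempty
  · have h6 := ccSm1 e h hne (F.erase A) hE
      (fun B hB C hC => hd B (mem_of_mem_erase hB) C (mem_of_mem_erase hC))
      (fun B hB => hc B (mem_of_mem_erase hB))
      (fun B hB hvB => (mem_erase.1 hB).1 (by
        by_contra hBA
        exact disjoint_left.1 (hd B (mem_of_mem_erase hB) A hA hBA) hvB hvA))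
    omega
  · rw [not_nonempty_iff_eq_empty] at hE
    rw [hE] at hle
    have h7 : jo (ctr (src e) (dst e) ∘ src) (ctr (src e) (dst e) ∘ dst)
        (∅ : Finset (Finset V)) = 0 := by
      unfold jo
      simp
    omega

theorem sm_of {src dst : E → V}
    (h : ∀ (k : ℕ) (B : Fin k → Finset V), 0 < k → (∀ i j, i ≠ j → Disjoint (B i) (B j)) →
      (∀ i, Connected src dst (B i)) → (minorGraph src dst B).edgeSet.ncard < 4 * k) :
    Sm src dst := by
  classical
  intro F hF hd hc
  let φ := F.equivFin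
  let B : Fin F.card → Finset V := fun i => (φ.symm i : Finset V)
  have hB : ∀ i, B i ∈ F := fun i => (φ.symm i).2
  have hBinj : ∀ i j, B i = B j → i = j := by
    intro i j hij
    exact φ.symm.injective (Subtype.ext hij)
  have h1 := h F.card B (card_pos.2 hF)
    (fun i j hij => hd _ (hB i) _ (hB j) (fun h => hij (hBinj i j h))) (fun i => hc _ (hB i))
  have h2 : jo src dst F ≤ 2 * (minorGraph src dst B).edgeSet.ncard := by
    have h3 : (minorGraph src dst B).edgeSet.ncard = (minorGraph src dst B).edgeFinset.card := by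
      rw [← SimpleGraph.coe_edgeFinset, Set.ncard_coe_finset]
    rw [h3, ← SimpleGraph.dart_card_eq_twice_card_edges]
    have h4 : Fintype.card {q : Fin F.card × Fin F.card // (minorGraph src dst B).Adj q.1 q.2} =
        Fintype.card (minorGraph src dst B).Dart :=
      Fintype.card_congr ⟨fun q => ⟨q.1, q.2⟩, fun d => ⟨d.toProd, d.adj⟩, fun q => rfl,
        fun d => rfl⟩
    rw [← h4, Fintype.card_subtype]
    unfold jo
    refine card_le_card_of_injOn (fun p => if hp : p.1 ∈ F ∧ p.2 ∈ F then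
      (φ ⟨p.1, hp.1⟩, φ ⟨p.2, hp.2⟩) else (⟨0, card_pos.2 hF⟩, ⟨0, card_pos.2 hF⟩)) ?_ ?_
    · intro p hp
      rw [mem_coe, mem_filter, mem_offDiag] at hp
      obtain ⟨⟨hp1, hp2, hp3⟩, hp4⟩ := hp
      rw [mem_coe, mem_filter]
      beta_reduce
      rw [dif_pos ⟨hp1, hp2⟩]
      refine ⟨mem_univ _, fun h => hp3 ?_, ?_⟩
      · exact congrArg Subtype.val (φ.injective h)
      · have e1 : B (φ ⟨p.1, hp1⟩) = p.1 := by
          show ((φ.symm (φ ⟨p.1, hp1⟩) : F) : Finset V) = p.1
          rw [φ.symm_apply_apply]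
        have e2 : B (φ ⟨p.2, hp2⟩) = p.2 := by
          show ((φ.symm (φ ⟨p.2, hp2⟩) : F) : Finset V) = p.2
          rw [φ.symm_apply_apply]
        rw [e1, e2]
        exact hp4
    · intro p hp q hq hpq
      rw [mem_coe, mem_filter, mem_offDiag] at hp hq
      beta_reduce at hpq
      rw [dif_pos ⟨hp.1.1, hp.1.2.1⟩, dif_pos ⟨hq.1.1, hq.1.2.1⟩] at hpq
      have e1 := congrArg Subtype.val (φ.injective (congrArg Prod.fst hpq))
      have e2 := congrArg Subtype.val (φ.injective (congrArg Prod.snd hpq))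
      exact Prod.ext e1 e2
  omega

/-- **Main step.** -/
theorem flow_of_Sm (hA : St_ASM) (hc : St_contract) {src dst : E → V} (hcl : Sm src dst)
    (hbr : Br src dst ∅ ∅) : FlowOn src dst ∅ ∅ := by
  classical
  by_contra hn
  obtain ⟨s, d, hS, hM⟩ := exists_minC ccSm src dst hcl hbr hn
  have ht := threeC hc hM
  have hgi := girthC hc hM
  by_cases hl : ∀ e, s e = d e
  · exact hM.nf (flow_of_loops hl)
  push Not at hl
  obtain ⟨e, he⟩ := hl
  let G : SimpleGraph V :=
    { Adj := Adj s d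
      symm := ⟨fun a b h => GiAux.adj_symm h⟩
      loopless := ⟨fun a h => h.1 rfl⟩ }
  have h12 : ∀ (w : V) (c : G.Walk w w), c.IsCycle → 12 ≤ c.length :=
    fun w c hc => Ord.cycle_len hgi G (fun a b => Iff.rfl) c hc
  have hU : Uq G := fun x y p q hp hq hl => Ord.uniq h12 hp hq hl
  have h3 : ∀ x y, G.Adj x y → 3 ≤ (N G x).card := by
    intro x y hxy
    obtain ⟨a, b, c, ha, hb', hc', hab, hac, hbc⟩ := ht x y hxy
    have h4 : ({a, b, c} : Finset V) ⊆ N G x := by
      intro z hz
      simp only [mem_insert, mem_singleton] at hz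
      rw [mem_N]
      rcases hz with rfl | rfl | rfl
      · exact ha
      · exact hb'
      · exact hc'
    calc 3 = ({a, b, c} : Finset V).card := by
          rw [card_insert_of_notMem (by simp [hab, hac]), card_pair hbc]
      _ ≤ _ := card_le_card h4
  obtain ⟨F, hF, hcn, hd, hcard⟩ := hA V G hU h3 ⟨_, _, (⟨he, e, Or.inl ⟨rfl, rfl⟩⟩ : G.Adj (s e) (d e))⟩
  have hTJ : ∀ A B : Finset V, Disjoint A B → ((∃ a ∈ A, ∃ b ∈ B, G.Adj a b) ↔ Joined s d A B) := by
    intro A B hAB
    constructor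
    · rintro ⟨a, ha, b, hb', -, e', ⟨rfl, rfl⟩ | ⟨rfl, rfl⟩⟩
      · exact ⟨e', Or.inl ⟨ha, hb'⟩⟩
      · exact ⟨e', Or.inr ⟨hb', ha⟩⟩
    · rintro ⟨e', ⟨ha, hb'⟩ | ⟨hb', ha⟩⟩
      · refine ⟨s e', ha, d e', hb', fun h => ?_, e', Or.inl ⟨rfl, rfl⟩⟩
        exact Finset.disjoint_left.1 hAB ha (h ▸ hb')
      · refine ⟨d e', ha, s e', hb', fun h => ?_, e', Or.inr ⟨rfl, rfl⟩⟩
        exact Finset.disjoint_left.1 hAB ha (h ▸ hb')
  have h5 := hS F hF hd (fun A hA' => ⟨(hcn A hA').1, fun X hX h1 h2 =>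
    (hTJ _ _ disjoint_sdiff).1 ((hcn A hA').2 X hX h1 h2)⟩)
  have h6 : adjO G F ≤ jo s d F := by
    unfold adjO jo
    refine card_le_card fun p hp => ?_
    rw [mem_filter, mem_offDiag] at hp ⊢
    exact ⟨hp.1, (hTJ _ _ (hd _ hp.1.1 _ hp.1.2.1 hp.1.2.2)).1 hp.2⟩
  omega

end

end Pool.Agent.L0h99.MN
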