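import Pool.Agent.L0h99.MN.Cls
import Pool.Agent.L0h99.MN.Asm
import Pool.Agent.L0h2.MN.C3Z
import Pool.Agent.L0h24.MN.PAK
import Pool.Agent.L0h34.MN.TRE
import Pool.Agent.L0h39.MN.C3H
import Pool.Agent.L0h55.MN.SDT
import Pool.Agent.L0h57.MN.TV
import Pool.Agent.L0h59.MN.C3T
import Pool.Agent.L0h60.MN.C1
import Pool.Agent.L0h60.MN.SML
import Pool.Agent.L0h68.MN.CNN
import Pool.Agent.L0h71.MN.PAR
import Pool.Agent.L0h71.MN.SDP
import Pool.Agent.L0h75.MN.IND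
import Pool.Agent.L0h81.MN.ATT
import Pool.Agent.L0h83.MN.C2
import Pool.Agent.L0h85.MN.CNT
import Pool.Agent.L0h89.MN.LF
import Pool.Agent.L0h95.MN.PAX

set_option autoImplicit false

/-!
# Assembly: dense minors of graphs of girth twelve, and the class of sparse minors
-/

namespace Pool.Agent.L0h99.MN

open Finset

/-- the first block of a decomposition -/
theorem stp (h1 : St_TV) (h2 : St_C1) (h3 : St_C2) (h4 : St_LF) (h5 : St_C3Z) (h6 : St_C3T)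
    (h7 : St_C3H) : St_STP := by
  intro V _ _ G W H hG hI hH
  by_cases hT : ∀ v ∈ H, Tame G W H v
  · rcases h2 V G W H hG hI hT with h | hA
    · exact Or.inl h
    rcases h3 V G W H hG hI hA with h | hB
    · exact Or.inl h
    have hL : ∀ v ∈ H, Leafy G W v := fun v hv => h4 V G W H hI hA hB v hv (hT v hv)
    obtain ⟨v, hv⟩ := hH
    obtain ⟨a, b, w, n1, n2, n3, hN, ha, hb, hw⟩ := hL v hv
    by_cases c1 : ∀ y ∈ W, G.Adj w y → y = v
    · exact Or.inr (h5 V G W H hG hI hA hB v hv a b w n1 n2 n3 hN ha hb hw (Or.inl c1))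
    push Not at c1
    obtain ⟨y, hy, hwy, hyv⟩ := c1
    by_cases c2 : ∀ x ∈ W, G.Adj y x → x = w
    · exact Or.inr (h5 V G W H hG hI hA hB v hv a b w n1 n2 n3 hN ha hb hw
        (Or.inr ⟨y, hy, hwy, hyv, c2⟩))
    push Not at c2
    obtain ⟨x, hx, hyx, hxw⟩ := c2
    by_cases c3 : ∀ h ∈ H, ¬ G.Adj h x
    · exact Or.inl (h6 V G W H hG hI hA hB v hv a b w n1 n2 n3 hN y hy hwy hyv x hx hyx hxw c3)
    push Not at c3
    obtain ⟨h, hh, hhx⟩ := c3
    exact Or.inl (h7 V G W H hG hI hA hB v hv a b w n1 n2 n3 hN ha hb y hy hwy hyv x hx hyx hxw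
      h hh hhx (hL h hh))
  · push Not at hT
    obtain ⟨v, hv, hv'⟩ := hT
    rcases h1 V G W H hG hI v hv with h | h
    · exact Or.inl h
    · exact absurd h hv'

theorem stp_all : St_STP := stp Pool.Agent.L0h57.MN.TV Pool.Agent.L0h60.MN.C1
  Pool.Agent.L0h83.MN.C2 Pool.Agent.L0h89.MN.t_LF Pool.Agent.L0h2.MN.C3Z Pool.Agent.L0h59.MN.C3T
  Pool.Agent.L0h39.MN.C3H

theorem asm_all : St_ASM := asm Pool.Agent.L0h60.MN.SML Pool.Agent.L0h75.MN.IND stp_all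
  Pool.Agent.L0h55.MN.SDT Pool.Agent.L0h71.MN.SDP (Pool.Agent.L0h71.MN.PAR Pool.Agent.L0h95.MN.PAX)
  Pool.Agent.L0h34.MN.TRE Pool.Agent.L0h68.MN.CNN Pool.Agent.L0h85.MN.CNT Pool.Agent.L0h24.MN.PAK
  Pool.Agent.L0h81.MN.ATT

end Pool.Agent.L0h99.MN
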