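import Pool.Agent.L0h99.MN.Stm2

set_option autoImplicit false

namespace Pool.Agent.L0h99.MD

open Finset Pool.Agent.L0h99.MN

theorem idu : St_IDU := by
  classical
  rintro V V' _ _ _ _ f G hf ⟨B, h1, h2, h3⟩
  refine ⟨fun i => (B i).image f, ?_, ?_, ?_⟩
  · intro i
    refine ⟨(h1 i).1.image f, ?_⟩
    intro X hX hXn hXne
    have k1 : ((B i).filter (fun x => f x ∈ X)).Nonempty := by
      obtain ⟨x, hx⟩ := hXn
      obtain ⟨y, hy, rfl⟩ := mem_image.1 (hX hx)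
      exact ⟨y, mem_filter.2 ⟨hy, hx⟩⟩
    have k2 : (B i).filter (fun x => f x ∈ X) ≠ B i := by
      intro h
      apply hXne
      refine Subset.antisymm hX fun x hx => ?_
      obtain ⟨y, hy, rfl⟩ := mem_image.1 hx
      rw [← h] at hy
      exact (mem_filter.1 hy).2
    obtain ⟨a, ha, b, hb, hab⟩ := (h1 i).2 _ (filter_subset _ _) k1 k2
    refine ⟨f a, (mem_filter.1 ha).2, f b, ?_, hab⟩
    obtain ⟨hb1, hb2⟩ := mem_sdiff.1 hb
    exact mem_sdiff.2 ⟨mem_image_of_mem f hb1, fun h => hb2 (mem_filter.2 ⟨hb1, h⟩)⟩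
  · intro i j hij
    rw [disjoint_left]
    intro x hx hx'
    obtain ⟨y, hy, rfl⟩ := mem_image.1 hx
    obtain ⟨z, hz, h⟩ := mem_image.1 hx'
    rw [hf h] at hz
    exact disjoint_left.1 (h2 i j hij) hy hz
  · intro i j hij
    obtain ⟨x, hx, y, hy, hxy⟩ := h3 i j hij
    exact ⟨f x, mem_image_of_mem f hx, f y, mem_image_of_mem f hy, hxy⟩

end Pool.Agent.L0h99.MD
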