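import Pool.Agent.L0h99.MN.Stm

set_option autoImplicit false

/-!
# Statements for MP_974d84_co, project MD (helper99): Mader's theorem for `K_6`

A graph with `n ≥ 4` vertices and at least `4 n - 9` edges has a `K_6` minor.
`N G x`, `ee G A B`, `Cn G A` are defined in `Pool/Agent/L0h99/MN/Stm.lean`.
-/

namespace Pool.Agent.L0h99.MD

open Finset Pool.Agent.L0h99.MN

section

variable {V : Type} [Fintype V] [DecidableEq V]

/-- twice the number of the edges -/
noncomputable def E2 (G : SimpleGraph V) : ℤ := ∑ x, ((N G x).card : ℤ)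

/-- `G` has a `K_6` minor -/
def K6 (G : SimpleGraph V) : Prop := ∃ B : Fin 6 → Finset V, (∀ i, Cn G (B i)) ∧
  (∀ i j, i ≠ j → Disjoint (B i) (B j)) ∧ ∀ i j, i ≠ j → ∃ x ∈ B i, ∃ y ∈ B j, G.Adj x y

/-- there is a `K_5` minor inside `S` -/
def K5in (G : SimpleGraph V) (S : Finset V) : Prop := ∃ B : Fin 5 → Finset V,
  (∀ i, B i ⊆ S ∧ Cn G (B i)) ∧ (∀ i j, i ≠ j → Disjoint (B i) (B j)) ∧
  ∀ i j, i ≠ j → ∃ x ∈ B i, ∃ y ∈ B j, G.Adj x y

/-- there is a `K_3` minor inside `S \ {p, q}`, all three branch sets have neighbours `p` and `q` -/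
def Patt (G : SimpleGraph V) (S : Finset V) (p q : V) : Prop := ∃ B : Fin 3 → Finset V,
  (∀ i, B i ⊆ S ∧ p ∉ B i ∧ q ∉ B i ∧ Cn G (B i) ∧ (∃ x ∈ B i, G.Adj p x) ∧
    (∃ x ∈ B i, G.Adj q x)) ∧ (∀ i j, i ≠ j → Disjoint (B i) (B j)) ∧
  ∀ i j, i ≠ j → ∃ x ∈ B i, ∃ y ∈ B j, G.Adj x y

/-- a counterexample -/
def Bad (V : Type) [Fintype V] [DecidableEq V] (G : SimpleGraph V) : Prop :=
  4 ≤ Fintype.card V ∧ 8 * (Fintype.card V : ℤ) - 18 ≤ E2 G ∧ ¬ K6 G

/-- a smallest counterexample -/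
structure MinBad (V : Type) [Fintype V] [DecidableEq V] (G : SimpleGraph V) : Prop where
  bad : Bad V G
  smaller : ∀ (V' : Type) [Fintype V'] [DecidableEq V'] (G' : SimpleGraph V'),
    Fintype.card V' < Fintype.card V → ¬ Bad V' G'
  sub : ∀ G' : SimpleGraph V, G' < G → ¬ Bad V G'

/-- the graph obtained by contracting the edge `x y` (to `x`) -/
def ct (G : SimpleGraph V) (x y : V) : SimpleGraph {z : V // z ≠ y} where
  Adj a b := a ≠ b ∧ (G.Adj a.1 b.1 ∨ (a.1 = x ∧ G.Adj y b.1) ∨ (b.1 = x ∧ G.Adj y a.1))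
  symm := ⟨fun a b h => ⟨h.1.symm, by
    rcases h.2 with h | h | h
    · exact Or.inl h.symm
    · exact Or.inr (Or.inr h)
    · exact Or.inr (Or.inl h)⟩⟩
  loopless := ⟨fun a h => h.1 rfl⟩

/-- the neighbourhood `S` of a vertex of degree 5, 6 or 7 has a `K_5` minor, or is sparse and every
missing edge would give one -/
def Loc (G : SimpleGraph V) (S : Finset V) : Prop := K5in G S ∨
  (ee G S S ≤ 6 * (S.card : ℤ) - 12 ∧ ∀ p ∈ S, ∀ q ∈ S, p ≠ q → ¬ G.Adj p q → Patt G S p q)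

/-- `tb l i j`: the pair `i, j` is in the list `l` -/
def tb {n : ℕ} (l : List (Fin n × Fin n)) (i j : Fin n) : Bool := l.contains (i, j) || l.contains (j, i)

/-- the circuit with seven edges -/
def tA : Fin 7 → Fin 7 → Bool := tb [(0, 1), (1, 2), (2, 3), (3, 4), (4, 5), (5, 6), (6, 0)]
/-- circuits with four and three edges -/
def tB : Fin 7 → Fin 7 → Bool := tb [(0, 1), (1, 2), (2, 3), (3, 0), (4, 5), (5, 6), (6, 4)]
/-- circuit with six edges, one isolated vertex -/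
def tC : Fin 7 → Fin 7 → Bool := tb [(0, 1), (1, 2), (2, 3), (3, 4), (4, 5), (5, 0)]
/-- two triangles, one isolated vertex -/
def tD : Fin 7 → Fin 7 → Bool := tb [(0, 1), (1, 2), (2, 0), (3, 4), (4, 5), (5, 3)]
/-- circuit with five edges and one edge -/
def tE : Fin 7 → Fin 7 → Bool := tb [(0, 1), (1, 2), (2, 3), (3, 4), (4, 0), (5, 6)]

/-- the vertices of `S` are `x 0, ..., x 6` and all pairs which are not in the table `t` are
adjacent in `G` -/
def Tp (G : SimpleGraph V) (S : Finset V) (t : Fin 7 → Fin 7 → Bool) : Prop :=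
  ∃ x : Fin 7 → V, Function.Injective x ∧ S = univ.image x ∧
    ∀ i j, i ≠ j → t i j = false → G.Adj (x i) (x j)

/-! ### The modules -/

/-- MON (20 lines). -/
def St_MON : Prop := ∀ (V : Type) [Fintype V] [DecidableEq V] (G G' : SimpleGraph V), G' ≤ G →
  K6 G' → K6 G

/-- IDU (60 lines).  Branch sets `(B i).image f`. -/
def St_IDU : Prop := ∀ (V V' : Type) [Fintype V] [DecidableEq V] [Fintype V'] [DecidableEq V']
  (f : V' → V) (G : SimpleGraph V), Function.Injective f → K6 (G.comap f) → K6 G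

/-- EIN (40 lines). -/
def St_EIN : Prop := ∀ (V V' : Type) [Fintype V] [DecidableEq V] [Fintype V'] [DecidableEq V']
  (f : V' → V) (G : SimpleGraph V), Function.Injective f →
  E2 (G.comap f) = ee G (univ.image f) (univ.image f)

/-- EVN (20 lines).  `SimpleGraph.sum_degrees_eq_twice_card_edges`. -/
def St_EVN : Prop := ∀ (V : Type) [Fintype V] [DecidableEq V] (G : SimpleGraph V),
  ∃ m : ℤ, E2 G = 2 * m

/-- CTK (120 lines).  Branch sets: `B i` as a set of vertices of `G`, with `y` added if `x` is in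
it (compare `ccSm1` in `Pool/Agent/L0h99/MN/Cls.lean`). -/
def St_CTK : Prop := ∀ (V : Type) [Fintype V] [DecidableEq V] (G : SimpleGraph V) (x y : V),
  G.Adj x y → K6 (ct G x y) → K6 G

/-- CTE (120 lines).  The degree of `x` becomes `deg x + deg y - 2 - t`, where `t` is the number of
the common neighbours; the degrees of the common neighbours drop by one; the others stay. -/
def St_CTE : Prop := ∀ (V : Type) [Fintype V] [DecidableEq V] (G : SimpleGraph V) (x y : V),
  G.Adj x y → E2 (ct G x y) = E2 G - 2 - 2 * ((N G x ∩ N G y).card : ℤ)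

/-- TRI (40 lines).  Otherwise `ct G x y` is a smaller counterexample (`card V ≥ 5`, because for
`card V = 4` we would have `14 ≤ E2 G ≤ 12`). -/
def St_TRI : Prop := St_CTK → St_CTE → ∀ (V : Type) [Fintype V] [DecidableEq V]
  (G : SimpleGraph V), MinBad V G → ∀ x y, G.Adj x y → 4 ≤ (N G x ∩ N G y).card

/-- DEL (60 lines).  Otherwise (`E2 G` is even) delete one edge: `G.deleteEdges {s(x, y)}` has
`E2 = E2 G - 2 ≥ 8 n - 18`. -/
def St_DEL : Prop := St_MON → St_EVN → ∀ (V : Type) [Fintype V] [DecidableEq V]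
  (G : SimpleGraph V), MinBad V G → E2 G < 8 * (Fintype.card V : ℤ)

/-- ISO (60 lines).  Otherwise delete the isolated vertex `x`: `G.comap Subtype.val` on
`{z // z ≠ x}` (`card V ≥ 5`, because for `card V = 4` we would have `14 ≤ E2 G ≤ 12`). -/
def St_ISO : Prop := St_IDU → St_EIN → ∀ (V : Type) [Fintype V] [DecidableEq V]
  (G : SimpleGraph V), MinBad V G → ∀ x, ∃ y, G.Adj x y

/-- LOW (40 lines).  From the conclusions of TRI, DEL, ISO: all degrees are at least five (a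
neighbour `y` of `x` and four common neighbours), the average degree is less than eight. -/
def St_LOW : Prop := ∀ (V : Type) [Fintype V] [DecidableEq V] (G : SimpleGraph V),
  (∀ x y, G.Adj x y → 4 ≤ (N G x ∩ N G y).card) → (∀ x, ∃ y, G.Adj x y) →
  E2 G < 8 * (Fintype.card V : ℤ) →
  (∀ x, 5 ≤ (N G x).card) ∧ ∃ v, 5 ≤ (N G v).card ∧ (N G v).card ≤ 7

/-- VF (60 lines).  Branch sets: `{v}` and the five others (`Fin.cons`). -/
def St_VF : Prop := ∀ (V : Type) [Fintype V] [DecidableEq V] (G : SimpleGraph V) (v : V),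
  K5in G (N G v) → K6 G

/-- PKF (50 lines).  Branch sets: `{p}`, `{q}` and the three of `Patt`. -/
def St_PKF : Prop := ∀ (V : Type) [Fintype V] [DecidableEq V] (G : SimpleGraph V) (S : Finset V)
  (p q : V), p ∈ S → q ∈ S → G.Adj p q → Patt G S p q → K5in G S

/-- LNK (100 lines).  Branch sets: `{v}`, `insert p D`, `{q}` and the three of `Patt`. -/
def St_LNK : Prop := ∀ (V : Type) [Fintype V] [DecidableEq V] (G : SimpleGraph V) (v p q : V)
  (D : Finset V), p ∈ N G v → q ∈ N G v → p ≠ q → Patt G (N G v) p q → Cn G D →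
  Disjoint D (insert v (N G v)) → (∃ d ∈ D, G.Adj p d) → (∃ d ∈ D, G.Adj q d) → K6 G

/-- LCF (50 lines).  `S` is a clique: `K5in` with five singletons. -/
def St_LCF : Prop := ∀ (V : Type) [Fintype V] [DecidableEq V] (G : SimpleGraph V) (S : Finset V),
  S.card = 5 → (∀ s ∈ S, 4 ≤ (N G s ∩ S).card) → Loc G S

/-- LCS (150 lines).  Every element of `S` has at most one non-neighbour in `S` (different from
itself).  If no element is adjacent to all the others, the non-adjacent pairs form three disjoint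
pairs `p1 q1`, `p2 q2`, `p3 q3`; `ee G S S = 24`; `Patt p1 q1`: `{p2, p3}`, `{q2}`, `{q3}`.
Otherwise there are two such elements `u1`, `u2` (parity) and the others are `p1, q1, p2, q2` where at
most the pairs `p1 q1`, `p2 q2` are not adjacent; `K5in`: `{u1}`, `{u2}`, `{p1, p2}`, `{q1}`,
`{q2}`. -/
def St_LCS : Prop := ∀ (V : Type) [Fintype V] [DecidableEq V] (G : SimpleGraph V) (S : Finset V),
  S.card = 6 → (∀ s ∈ S, 4 ≤ (N G s ∩ S).card) → Loc G S

/-- MAX (80 lines).  Among the graphs `H` on `V` with all edges inside `S`, containing all pairs of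
different elements of `S` which are not adjacent in `G`, with all degrees at most two, take one with
as many edges as possible (`Finset.exists_max_image` or well-foundedness on `E2`). -/
def St_MAX : Prop := ∀ (V : Type) [Fintype V] [DecidableEq V] (G : SimpleGraph V) (S : Finset V),
  S.card = 7 → (∀ s ∈ S, 4 ≤ (N G s ∩ S).card) →
  ∃ H : SimpleGraph V, (∀ x y, H.Adj x y → x ∈ S ∧ y ∈ S) ∧
    (∀ x ∈ S, ∀ y ∈ S, x ≠ y → ¬ G.Adj x y → H.Adj x y) ∧ (∀ x, (N H x).card ≤ 2) ∧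
    ∀ x ∈ S, ∀ y ∈ S, x ≠ y → (N H x).card ≤ 1 → (N H y).card ≤ 1 → H.Adj x y

/-- TYP (80 lines).  At most two elements of `S` have degree at most one in `H` (three would be
pairwise adjacent), the sum of the degrees is even (EVN). -/
def St_TYP : Prop := St_EVN → ∀ (V : Type) [Fintype V] [DecidableEq V] (H : SimpleGraph V)
  (S : Finset V), S.card = 7 → (∀ x y, H.Adj x y → x ∈ S ∧ y ∈ S) → (∀ x, (N H x).card ≤ 2) →
  (∀ x ∈ S, ∀ y ∈ S, x ≠ y → (N H x).card ≤ 1 → (N H y).card ≤ 1 → H.Adj x y) →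
  (∀ x ∈ S, (N H x).card = 2) ∨
  (∃ u ∈ S, N H u = ∅ ∧ ∀ x ∈ S, x ≠ u → (N H x).card = 2) ∨
  (∃ p ∈ S, ∃ q ∈ S, p ≠ q ∧ N H p = {q} ∧ N H q = {p} ∧
    ∀ x ∈ S, x ≠ p → x ≠ q → (N H x).card = 2)

/-- CYC (120 lines).  A nonempty set `R` of vertices, each with exactly two neighbours, both in `R`,
contains a circuit `x 0, ..., x (k-1)` which is a component (start at any vertex and walk on; or
Mathlib: `SimpleGraph.IsCycles`). -/
def St_CYC : Prop := ∀ (V : Type) [Fintype V] [DecidableEq V] (H : SimpleGraph V) (R : Finset V),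
  R.Nonempty → (∀ x ∈ R, (N H x).card = 2 ∧ N H x ⊆ R) →
  ∃ (k : ℕ) (x : Fin (k + 3) → V), Function.Injective x ∧ (∀ i, x i ∈ R) ∧
    ∀ i, N H (x i) = {x (i + 1), x (i - 1)}

/-- RGF (50 lines), from CYC: `R` has five elements, so `k + 3 = 5` (otherwise the remaining one or
two elements would be a nonempty set to which CYC applies). -/
def St_RGF : Prop := St_CYC → ∀ (V : Type) [Fintype V] [DecidableEq V] (H : SimpleGraph V)
  (R : Finset V), R.card = 5 → (∀ x ∈ R, (N H x).card = 2 ∧ N H x ⊆ R) →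
  ∃ x : Fin 5 → V, Function.Injective x ∧ R = univ.image x ∧
    ∀ i j, H.Adj (x i) (x j) → tb [(0, 1), (1, 2), (2, 3), (3, 4), (4, 0)] i j = true

/-- RGS (80 lines), from CYC. -/
def St_RGS : Prop := St_CYC → ∀ (V : Type) [Fintype V] [DecidableEq V] (H : SimpleGraph V)
  (R : Finset V), R.card = 6 → (∀ x ∈ R, (N H x).card = 2 ∧ N H x ⊆ R) →
  ∃ x : Fin 6 → V, Function.Injective x ∧ R = univ.image x ∧
    ((∀ i j, H.Adj (x i) (x j) →
      tb [(0, 1), (1, 2), (2, 3), (3, 4), (4, 5), (5, 0)] i j = true) ∨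
    (∀ i j, H.Adj (x i) (x j) → tb [(0, 1), (1, 2), (2, 0), (3, 4), (4, 5), (5, 3)] i j = true))

/-- RGV (100 lines), from CYC: circuits with 7, or 4 and 3 elements. -/
def St_RGV : Prop := St_CYC → ∀ (V : Type) [Fintype V] [DecidableEq V] (H : SimpleGraph V)
  (R : Finset V), R.card = 7 → (∀ x ∈ R, (N H x).card = 2 ∧ N H x ⊆ R) →
  ∃ x : Fin 7 → V, Function.Injective x ∧ R = univ.image x ∧
    ((∀ i j, H.Adj (x i) (x j) → tA i j = true) ∨ (∀ i j, H.Adj (x i) (x j) → tB i j = true))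

/-- CLA (100 lines), from MAX, TYP, EVN, RGF, RGS, RGV, CYC (the isolated vertex is `x 6`, the
adjacent pair is `x 5, x 6`). -/
def St_CLA : Prop := ∀ (V : Type) [Fintype V] [DecidableEq V] (G : SimpleGraph V) (S : Finset V),
  S.card = 7 → (∀ s ∈ S, 4 ≤ (N G s ∩ S).card) →
  Tp G S tA ∨ Tp G S tB ∨ Tp G S tC ∨ Tp G S tD ∨ Tp G S tE

/-- TAB (60 lines).  Branch sets `(C i).image x`. -/
def St_TAB : Prop := ∀ (V : Type) [Fintype V] [DecidableEq V] (G : SimpleGraph V) (S : Finset V)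
  (t : Fin 7 → Fin 7 → Bool) (C : Fin 5 → Finset (Fin 7)), Tp G S t →
  (∀ i, (C i).Nonempty ∧ ∀ X ∈ (C i).powerset, X.Nonempty → X ≠ C i →
    ∃ a ∈ X, ∃ b ∈ C i \ X, a ≠ b ∧ t a b = false) →
  (∀ i j, i ≠ j → Disjoint (C i) (C j)) →
  (∀ i j, i ≠ j → ∃ a ∈ C i, ∃ b ∈ C j, a ≠ b ∧ t a b = false) → K5in G S

/-- TFR (60 lines), from TAB by `decide`:
`tA`: `{0}, {2}, {4}, {1, 5}, {3, 6}`; `tB`: `{4, 0}, {5, 2}, {6}, {1}, {3}`;
`tC`: `{6}, {0}, {2}, {4}, {1, 3, 5}`; `tD`: `{6}, {0, 3}, {1, 4}, {2}, {5}`. -/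
def St_TFR : Prop := St_TAB → ∀ (V : Type) [Fintype V] [DecidableEq V] (G : SimpleGraph V)
  (S : Finset V), Tp G S tA ∨ Tp G S tB ∨ Tp G S tC ∨ Tp G S tD → K5in G S

/-- TPT (150 lines).  For every pair `i j` of the table `tE` we have `Patt G S (x i) (x j)`:
`5, 6`: `{0, 2}, {4, 1}, {3}`; `0, 1`: `{5, 3}, {2, 4}, {6}`; `i, i + 1` (`i < 5`, mod 5):
`{5, i + 3}, {i + 2, i + 4}, {6}`.  If one of these pairs is adjacent in `G` then `K5in` by PKF.
Otherwise `ee G S S = 5 * 4 + 2 * 5 = 30`, and the pairs of `tE` are the only non-adjacent ones. -/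
def St_TPT : Prop := St_PKF → ∀ (V : Type) [Fintype V] [DecidableEq V] (G : SimpleGraph V)
  (S : Finset V), Tp G S tE → Loc G S

/-- SEP (150 lines).  `K` = the neighbours of `D` outside `D`.  The subgraphs on `V1 = D ∪ K` and on
`V2 = univ \ D` (as `G.comap Subtype.val`) have fewer vertices and at least four (degrees at least
five: `V2` contains `v` and its neighbours), no `K_6` minor (IDU), so `E2 ≤ 8 |Vi| - 20` (EVN).
`ee V1 V1 + ee V2 V2 = E2 G + k (k - 1)` with `k = |K|`, `|V1| + |V2| = n + k`, so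
`8 n - 18 + k (k - 1) ≤ 8 (n + k) - 40`, i.e. `k ^ 2 - 9 k + 22 ≤ 0`, which is impossible. -/
def St_SEP : Prop := St_IDU → St_EIN → St_EVN → ∀ (V : Type) [Fintype V] [DecidableEq V]
  (G : SimpleGraph V) (D K : Finset V) (v : V), MinBad V G → (∀ x, 5 ≤ (N G x).card) →
  D.Nonempty → (∀ x, x ∈ K ↔ x ∉ D ∧ ∃ d ∈ D, G.Adj d x) → v ∉ D → v ∉ K →
  (∀ x ∈ K, ∀ y ∈ K, x ≠ y → G.Adj x y) → False

/-- COM (60 lines).  The component of `w` in `G - U`. -/
def St_COM : Prop := ∀ (V : Type) [Fintype V] [DecidableEq V] (G : SimpleGraph V) (U : Finset V)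
  (w : V), w ∉ U → ∃ D : Finset V, Cn G D ∧ w ∈ D ∧ Disjoint D U ∧
    ∀ d ∈ D, ∀ y, G.Adj d y → y ∈ D ∨ y ∈ U

/-- FUL (40 lines).  `univ = insert v (N v)`: `E2 G = 2 |S| + ee S S` with `S = N v`. -/
def St_FUL : Prop := ∀ (V : Type) [Fintype V] [DecidableEq V] (G : SimpleGraph V) (v : V),
  (∀ w, w ∈ insert v (N G v)) → ee G (N G v) (N G v) ≤ 6 * ((N G v).card : ℤ) - 12 →
  E2 G < 8 * (Fintype.card V : ℤ) - 18

/-- EXM (60 lines).  A counterexample with the smallest number of vertices, and then minimal with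
respect to `≤` (finite). -/
def St_EXM : Prop := (∃ (V : Type) (i : Fintype V) (j : DecidableEq V) (G : SimpleGraph V),
    @Bad V i j G) →
  ∃ (V : Type) (i : Fintype V) (j : DecidableEq V) (G : SimpleGraph V), @MinBad V i j G

/-- MAD (100 lines): Mader's theorem, from all the others.  In a smallest counterexample take `v` with
`5 ≤ deg v ≤ 7` (LOW), `S = N v`.  `Loc G S` (LCF, LCS; CLA, TFR, TPT).  Not `K5in` (VF).  Some
`w ∉ insert v S` (FUL).  `D` = component of `w` in `G - insert v S` (COM), `K` = its neighbours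
outside `D`, `K ⊆ S`; `K` is a clique by LNK; contradiction with SEP. -/
def St_MAD : Prop := ∀ (V : Type) [Fintype V] [DecidableEq V] (G : SimpleGraph V),
  4 ≤ Fintype.card V → 8 * (Fintype.card V : ℤ) - 18 ≤ E2 G → K6 G

/-- CMP (100 lines).  Branch sets `(C i).biUnion B` (minors of minors are minors). -/
def St_CMP : Prop := ∀ (V : Type) [Fintype V] [DecidableEq V] (R : V → V → Prop) (k : ℕ)
  (B : Fin k → Finset V) (M : SimpleGraph (Fin k)), (∀ x y, R x y → R y x) →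
  (∀ i j, i ≠ j → Disjoint (B i) (B j)) →
  (∀ i, (B i).Nonempty ∧ ∀ X ⊆ B i, X.Nonempty → X ≠ B i → ∃ a ∈ X, ∃ b ∈ B i \ X, R a b) →
  (∀ i j, M.Adj i j → ∃ a ∈ B i, ∃ b ∈ B j, R a b) → K6 M →
  ∃ D : Fin 6 → Finset V, (∀ i j, i ≠ j → Disjoint (D i) (D j)) ∧
    (∀ i, (D i).Nonempty ∧ ∀ X ⊆ D i, X.Nonempty → X ≠ D i → ∃ a ∈ X, ∃ b ∈ D i \ X, R a b) ∧
    ∀ i j, i ≠ j → ∃ a ∈ D i, ∃ b ∈ D j, R a b

end

end Pool.Agent.L0h99.MD
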