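import Pool.Agent.L0h99.MN.Fin
import Pool.Agent.L0h99.MN.Stm2
import Pool.Agent.L0h78.MD.MON
import Pool.Agent.L0h23.MD.EIN
import Pool.Agent.L0h89.MD.EVN
import Pool.Agent.L0h60.MD.CTK
import Pool.Agent.L0h60.MD.CTE
import Pool.Agent.L0h6.MD.TRI
import Pool.Agent.L0h6.MD.DEL
import Pool.Agent.L0h89.MD.ISO
import Pool.Agent.L0h78.MD.LOW
import Pool.Agent.L0h98.MD.VF
import Pool.Agent.L0h36.MD.PKF
import Pool.Agent.L0h92.MD.LNK
import Pool.Agent.L0h89.MD.LCF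
import Pool.Agent.H70.MD.MAX
import Pool.Agent.H70.MD.TYP
import Pool.Agent.L0h90.MD.CYC
import Pool.Agent.L0h78.MD.RGF
import Pool.Agent.L0h14.MD.RGS
import Pool.Agent.L0h33.MD.RGV
import Pool.Agent.L0h14.MD.CLA
import Pool.Agent.L0h89.MD.TAB
import Pool.Agent.L0h89.MD.TFR
import Pool.Agent.L0h88.MD.TPT
import Pool.Agent.L0h48.MD.SEP
import Pool.Agent.L0h98.MD.COM
import Pool.Agent.L0h78.MD.FUL
import Pool.Agent.L0h89.MD.EXM
import Pool.Agent.H50.MD.MAD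
import Pool.Agent.H50.MD.CMP
import Pool.Agent.L0h99.MN.Idu
import Pool.Agent.L0h83.MD.LCS

set_option autoImplicit false
set_option linter.unusedSectionVars false

/-!
# Mader's theorem for `K_6`, and simple graphs with few edges
-/

namespace Pool.Agent.L0h99.MN

open Finset Pool.Agent.L0h99.MD

/-- classification of the complements of the neighbourhoods with seven vertices -/
theorem cla_all : St_CLA := Pool.Agent.L0h14.MD.CLA Pool.Agent.H70.MD.MAX Pool.Agent.H70.MD.TYP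
  Pool.Agent.L0h89.MD.EVN Pool.Agent.L0h78.MD.RGF Pool.Agent.L0h14.MD.RGS Pool.Agent.L0h99.MD.RGV
  Pool.Agent.L0h90.MD.CYC

/-- **Mader's theorem for `K_6`** -/
theorem mad_all : St_MAD := Pool.Agent.H50.MD.MAD Pool.Agent.L0h78.MD.MON Pool.Agent.L0h99.MD.idu
  Pool.Agent.L0h23.MD.EIN Pool.Agent.L0h89.MD.EVN Pool.Agent.L0h60.MD.CTK Pool.Agent.L0h60.MD.CTE
  Pool.Agent.L0h6.MD.TRI Pool.Agent.L0h6.MD.DEL Pool.Agent.L0h89.MD.ISO Pool.Agent.L0h78.MD.LOW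
  Pool.Agent.L0h98.MD.VF Pool.Agent.L0h36.MD.PKF Pool.Agent.L0h92.MD.LNK Pool.Agent.L0h89.MD.LCF
  Pool.Agent.L0h83.MD.LCS cla_all Pool.Agent.L0h89.MD.TAB Pool.Agent.L0h89.MD.TFR
  Pool.Agent.L0h88.MD.TPT Pool.Agent.L0h48.MD.SEP Pool.Agent.L0h98.MD.COM Pool.Agent.L0h78.MD.FUL
  Pool.Agent.L0h89.MD.EXM

/-- simple graphs with `k > 0` vertices and without `K_6` minor have fewer than `4 k` edges -/
theorem few_edges {k : ℕ} (hk : 0 < k) (H : SimpleGraph (Fin k)) (h6 : ¬ K6 H) :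
    H.edgeSet.ncard < 4 * k := by
  classical
  have h1 : H.edgeSet.ncard = H.edgeFinset.card := by
    rw [← SimpleGraph.coe_edgeFinset, Set.ncard_coe_finset]
  have h2 : ∑ v, H.degree v = 2 * H.edgeFinset.card := H.sum_degrees_eq_twice_card_edges
  have h3 : ∀ v, (N H v).card = H.degree v := by
    intro v
    rw [← SimpleGraph.card_neighborFinset_eq_degree]
    congr 1
    ext w
    rw [mem_N, SimpleGraph.mem_neighborFinset]
  have h4 : E2 H = 2 * (H.edgeFinset.card : ℤ) := by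
    unfold E2
    rw [sum_congr rfl (fun v _ => by rw [h3 v])]
    exact_mod_cast h2
  rw [h1]
  by_contra hcon
  push Not at hcon
  have h5 : H.edgeFinset.card ≤ k.choose 2 := by
    have := H.card_edgeFinset_le_card_choose_two
    rwa [Fintype.card_fin] at this
  rw [Nat.choose_two_right] at h5
  have h7 : 4 ≤ k := by
    by_contra hk4
    have : k = 1 ∨ k = 2 ∨ k = 3 := by omega
    rcases this with rfl | rfl | rfl <;> omega
  refine h6 (mad_all (Fin k) H (by rw [Fintype.card_fin]; exact h7) ?_)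
  rw [h4, Fintype.card_fin]
  omega

variable {V E : Type} [Fintype V] [DecidableEq V]

/-- minors of minors are minors -/
theorem compose (src dst : E → V) {k : ℕ} (B : Fin k → Finset V)
    (hd : ∀ i j, i ≠ j → Disjoint (B i) (B j)) (hc : ∀ i, Connected src dst (B i))
    (M : SimpleGraph (Fin k)) (hM : ∀ i j, M.Adj i j → Joined src dst (B i) (B j)) (h6 : K6 M) :
    ∃ D : Fin 6 → Finset V, (∀ i j, i ≠ j → Disjoint (D i) (D j)) ∧
      (∀ i, Connected src dst (D i)) ∧ ∀ i j, i ≠ j → Joined src dst (D i) (D j) := by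
  have hJ : ∀ A B : Finset V, (∃ a ∈ A, ∃ b ∈ B, (∃ e, (src e = a ∧ dst e = b) ∨
      (src e = b ∧ dst e = a))) ↔ Joined src dst A B := by
    intro A B
    constructor
    · rintro ⟨a, ha, b, hb, e, ⟨rfl, rfl⟩ | ⟨rfl, rfl⟩⟩
      · exact ⟨e, Or.inl ⟨ha, hb⟩⟩
      · exact ⟨e, Or.inr ⟨hb, ha⟩⟩
    · rintro ⟨e, ⟨ha, hb⟩ | ⟨hb, ha⟩⟩
      · exact ⟨_, ha, _, hb, e, Or.inl ⟨rfl, rfl⟩⟩
      · exact ⟨_, ha, _, hb, e, Or.inr ⟨rfl, rfl⟩⟩
  obtain ⟨D, h1, h2, h3⟩ := Pool.Agent.H50.MD.CMP V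
    (fun a b => ∃ e, (src e = a ∧ dst e = b) ∨ (src e = b ∧ dst e = a)) k B M
    (fun x y ⟨e, he⟩ => ⟨e, he.symm⟩) hd
    (fun i => ⟨(hc i).1, fun X hX hX1 hX2 => (hJ _ _).2 ((hc i).2 X hX hX1 hX2)⟩)
    (fun i j hij => (hJ _ _).2 (hM i j hij)) h6
  exact ⟨D, h1, fun i => ⟨(h2 i).1, fun X hX hX1 hX2 => (hJ _ _).1 ((h2 i).2 X hX hX1 hX2)⟩,
    fun i j hij => (hJ _ _).1 (h3 i j hij)⟩

end Pool.Agent.L0h99.MN
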